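import Pool.Agent.T9h90.PMCount

/-!
# Perfect matching formulas that are hard for Polynomial Calculus over `𝔽₂` (and over every field)

`PMF F G` is the perfect matching formula of `G` over `F` (`Pool.Agent.T9h90.PMDefs`),
`IsRefutation Q L` says that the list `L` of lines is a Polynomial Calculus refutation of `Q`, and
`size L` is the total number of monomials of `L`.
-/

set_option autoImplicit false

open Filter

namespace Pool.Agent.Results.MP_0b520b_lc.TwinPigeons

open Pool.Agent.T9h90.PM

theorem result :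
    ∃ (V : ℕ → Type) (_ : ∀ n, Fintype (V n)) (G : ∀ n, SimpleGraph (V n)),
      Tendsto (fun n => Fintype.card (V n)) atTop atTop ∧
      (∀ n, ¬ ∃ M : (G n).Subgraph, M.IsPerfectMatching) ∧
      (∃ δ : ℝ, 0 < δ ∧ ∀ (n : ℕ) (L : List (MvPolynomial (G n).edgeSet (ZMod 2))),
        IsRefutation (PMF (ZMod 2) (G n)) L →
          Real.exp ((Fintype.card (V n) : ℝ) ^ δ) ≤ size L) ∧
      ∃ c : ℝ, 0 < c ∧ ∀ (F : Type) [Field F] (n : ℕ) (L : List (MvPolynomial (G n).edgeSet F)),
        IsRefutation (PMF F (G n)) L → Real.exp (c * Fintype.card (V n)) ≤ size L := by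
  have hlog := Real.log_two_gt_d9
  have key : ∀ (F : Type) [Field F] (n : ℕ) (L : List (MvPolynomial (Gr (n + 100)).edgeSet F)),
      IsRefutation (PMF F (Gr (n + 100))) L →
        Real.exp (((n + 100 : ℕ) : ℝ) * Real.log 2) ≤ size L := by
    intro F _ n L hL
    have h1 := lower_bound (by omega) L hL
    rw [mul_comm, ← Real.rpow_def_of_pos (by norm_num), Real.rpow_natCast]
    exact_mod_cast h1
  refine ⟨fun n => Vert (n + 100), fun n => inferInstance, fun n => Gr (n + 100), ?_,
    fun n => no_perfect _, ⟨1 / 2, by norm_num, fun n L hL => ?_⟩,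
    ⟨Real.log 2 / 34, by positivity, fun F _ n L hL => ?_⟩⟩
  · simp only [card_vert]
    refine tendsto_atTop_mono (fun n => ?_) tendsto_id
    simp only [id]
    omega
  · refine (Real.exp_le_exp.2 ?_).trans (key (ZMod 2) n L hL)
    rw [card_vert, ← Real.sqrt_eq_rpow]
    refine Real.sqrt_le_iff.2 ⟨by positivity, ?_⟩
    push_cast
    have h0 : (0 : ℝ) ≤ n := Nat.cast_nonneg n
    nlinarith [mul_nonneg h0 h0, mul_nonneg h0 (sub_nonneg.2 hlog.le),
      mul_le_mul hlog.le hlog.le (by norm_num) (by positivity)]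
  · refine (Real.exp_le_exp.2 ?_).trans (key F n L hL)
    rw [card_vert]
    push_cast
    have h0 : (0 : ℝ) ≤ n := Nat.cast_nonneg n
    nlinarith [mul_nonneg h0 (sub_nonneg.2 hlog.le)]

end Pool.Agent.Results.MP_0b520b_lc.TwinPigeons
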